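import Pool.Agent.R341.FamilyE4

set_option autoImplicit false

open Polynomial

namespace Pool.Agent.Results.MP_e4c55d_nt.UnboundedPreperiod

open Pool.Agent.R341.Salem6 Pool.Agent.R341.Greedy Pool.Agent.R341.FamilyE4

/-- **The preperiod lengths of Salem numbers of degree six are unbounded.** Moreover, for every
`J ≥ 2`, with `k = 2J+4`, the polynomial `x⁶ - kx⁵ + (2k-2)x⁴ - (2k-1)x³ + (2k-2)x² - kx + 1` is
the minimal polynomial of a Salem number whose expansion of `1` has preperiod length `2k-4` and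
period length `2k`. -/
theorem result :
    (∀ N : ℕ, ∃ β : ℝ, IsSalem β ∧ (minpoly ℤ β).natDegree = 6 ∧
      ∃ m p : ℕ, Shape β m p ∧ N < m) ∧
    ∀ J : ℕ, 2 ≤ J → ∃ β : ℝ, IsSalem β ∧
      minpoly ℤ β = X ^ 6 - C (2 * J + 4 : ℤ) * X ^ 5 + C (4 * J + 6 : ℤ) * X ^ 4
        - C (4 * J + 7 : ℤ) * X ^ 3 + C (4 * J + 6 : ℤ) * X ^ 2 - C (2 * J + 4 : ℤ) * X + 1 ∧
      Shape β (4 * J + 4) (4 * J + 8) := by
  constructor
  · intro N
    obtain ⟨β, h1, h2, h3⟩ := family (N + 2) (by omega)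
    exact ⟨β, h1, by rw [h2, P_natDegree], _, _, h3, by omega⟩
  · intro J hJ
    obtain ⟨β, h1, h2, h3⟩ := family J hJ
    refine ⟨β, h1, ?_, h3⟩
    rw [h2, P, C_neg, C_neg]
    ring

end Pool.Agent.Results.MP_e4c55d_nt.UnboundedPreperiod
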